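import Pool.Agent.H22.AN.TB3
import Pool.Agent.H80.AN.TargetsA

/-!
# Row FMB: pointwise bounds by the second moment
-/

set_option autoImplicit false

namespace Pool.Agent.H52.AN

open MeasureTheory Metric Set Filter Topology Pool.Agent.H87.SN Pool.Agent.H87.SH Pool.Agent.H87.AX
open Pool.Agent.H22.AN
open scoped ContDiff RealInnerProductSpace ENNReal

/-- Bessel inequality for an orthonormal pair -/
theorem on_bessel {d : ℕ} {ν₁ ν₂ : V d} (h : ON ν₁ ν₂) (v : V d) :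
    ⟪v, ν₁⟫ ^ 2 + ⟪v, ν₂⟫ ^ 2 ≤ ‖v‖ ^ 2 := by
  obtain ⟨h1, h2, h3⟩ := h
  have h11 : ⟪ν₁, ν₁⟫ = (1 : ℝ) := by rw [real_inner_self_eq_norm_sq, h1, one_pow]
  have h22 : ⟪ν₂, ν₂⟫ = (1 : ℝ) := by rw [real_inner_self_eq_norm_sq, h2, one_pow]
  have h21 : ⟪ν₂, ν₁⟫ = (0 : ℝ) := by rw [real_inner_comm, h3]
  have h0 : (0 : ℝ) ≤ ⟪v - ⟪v, ν₁⟫ • ν₁ - ⟪v, ν₂⟫ • ν₂, v - ⟪v, ν₁⟫ • ν₁ - ⟪v, ν₂⟫ • ν₂⟫ :=
    real_inner_self_nonneg
  have e1 : ⟪ν₁, v⟫ = ⟪v, ν₁⟫ := real_inner_comm _ _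
  have e2 : ⟪ν₂, v⟫ = ⟪v, ν₂⟫ := real_inner_comm _ _
  simp only [inner_sub_left, inner_sub_right, real_inner_smul_left, real_inner_smul_right, h11, h22,
    h3, h21, e1, e2, real_inner_self_eq_norm_sq v] at h0
  nlinarith [h0]

/-- The distance to the plane is Lipschitz. -/
theorem dl_lower {d : ℕ} {a ν₁ ν₂ x y : V d} (h : ON ν₁ ν₂) {s : ℝ} (hs : 0 ≤ s)
    (h1 : (2 * s) ^ 2 ≤ dl a ν₁ ν₂ x) (h2 : ‖y - x‖ ≤ s) : s ^ 2 ≤ dl a ν₁ ν₂ y := by
  have hb := on_bessel h (y - x)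
  have e1 : ⟪y - a, ν₁⟫ = ⟪y - x, ν₁⟫ + ⟪x - a, ν₁⟫ := by
    rw [← inner_add_left, sub_add_sub_cancel]
  have e2 : ⟪y - a, ν₂⟫ = ⟪y - x, ν₂⟫ + ⟪x - a, ν₂⟫ := by
    rw [← inner_add_left, sub_add_sub_cancel]
  unfold dl at h1 ⊢
  rw [e1, e2]
  have h3 : ‖y - x‖ ^ 2 ≤ s ^ 2 := by
    have := norm_nonneg (y - x)
    nlinarith
  generalize (⟪y - x, ν₁⟫ : ℝ) = p at *
  generalize (⟪y - x, ν₂⟫ : ℝ) = q at *
  generalize (⟪x - a, ν₁⟫ : ℝ) = u at *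
  generalize (⟪x - a, ν₂⟫ : ℝ) = v at *
  have h4 : p ^ 2 + q ^ 2 ≤ s ^ 2 := hb.trans h3
  have h5 : 2 * s ≤ Real.sqrt (u ^ 2 + v ^ 2) := Real.le_sqrt_of_sq_le h1
  have h9 : Real.sqrt (p ^ 2 + q ^ 2) ≤ s := Real.sqrt_le_iff.2 ⟨hs, h4⟩
  have h6 : |p * u + q * v| ≤ Real.sqrt (p ^ 2 + q ^ 2) * Real.sqrt (u ^ 2 + v ^ 2) := by
    apply abs_le_of_sq_le_sq _ (mul_nonneg (Real.sqrt_nonneg _) (Real.sqrt_nonneg _))
    rw [mul_pow, Real.sq_sqrt (by positivity), Real.sq_sqrt (by positivity)]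
    nlinarith [sq_nonneg (p * v - q * u)]
  have h7 := (abs_le.1 h6).1
  have h8 : Real.sqrt (u ^ 2 + v ^ 2) ^ 2 = u ^ 2 + v ^ 2 := Real.sq_sqrt (by positivity)
  have h10 : Real.sqrt (p ^ 2 + q ^ 2) ^ 2 = p ^ 2 + q ^ 2 := Real.sq_sqrt (by positivity)
  have h11 : s ≤ Real.sqrt (u ^ 2 + v ^ 2) - Real.sqrt (p ^ 2 + q ^ 2) := by linarith
  have h12 : s ^ 2 ≤ (Real.sqrt (u ^ 2 + v ^ 2) - Real.sqrt (p ^ 2 + q ^ 2)) ^ 2 :=
    pow_le_pow_left₀ hs h11 2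
  nlinarith

theorem pf_FMB (hMUF : T_MUF) : T_FMB := by
  intro d
  refine ⟨128 ^ (d + 2), one_le_pow₀ (by norm_num), ?_⟩
  intro m G hG a ν₁ ν₂ x t hON ht
  refine ⟨?_, ?_⟩
  · unfold bs Fm bt
    refine ENNReal.rpow_le_rpow ?_ (by norm_num)
    exact (iInf_le_of_le a (iInf_le_of_le ν₁ (iInf_le_of_le ν₂ (iInf_le_of_le hON le_rfl))))
  · intro hx
    have hfin : mu G univ ≠ ⊤ := (hMUF d m G hG).1
    have ht0 : (0 : ℝ) ≤ t / 128 := by positivity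
    have hlow : ∀ y ∈ ball x (t / 128), (t / 128) ^ 2 ≤ dl a ν₁ ν₂ y := by
      intro y hy
      refine dl_lower hON ht0 (x := x) ?_ ?_
      · have : 2 * (t / 128) = t / 64 := by ring
        rw [this]
        exact hx
      · rw [← dist_eq_norm]
        exact (mem_ball.1 hy).le
    have hμ : mu G (ball x (t / 128)) = ENNReal.ofReal ((mu G).real (ball x (t / 128))) := by
      rw [Measure.real, ENNReal.ofReal_toReal]
      exact ne_top_of_le_ne_top hfin (measure_mono (subset_univ _))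
    have h1 : ENNReal.ofReal ((t / 128) ^ 2) * mu G (ball x (t / 128)) ≤
        ∫⁻ y in ball x (8 * t), ENNReal.ofReal (dl a ν₁ ν₂ y) ∂(mu G) := by
      calc ENNReal.ofReal ((t / 128) ^ 2) * mu G (ball x (t / 128)) =
          ∫⁻ _ in ball x (t / 128), ENNReal.ofReal ((t / 128) ^ 2) ∂(mu G) := by
            rw [setLIntegral_const]
        _ ≤ ∫⁻ y in ball x (t / 128), ENNReal.ofReal (dl a ν₁ ν₂ y) ∂(mu G) :=
            setLIntegral_mono' measurableSet_ball fun y hy => ENNReal.ofReal_le_ofReal (hlow y hy)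
        _ ≤ ∫⁻ y in ball x (8 * t), ENNReal.ofReal (dl a ν₁ ν₂ y) ∂(mu G) :=
            lintegral_mono_set (ball_subset_ball (by linarith))
    have hC : (0 : ℝ) < 128 ^ (d + 2) := by positivity
    have hth : 0 ≤ th G x (t / 128) := by
      unfold th
      positivity
    have key : ENNReal.ofReal (th G x (t / 128) / 128 ^ (d + 2)) ≤
        ENNReal.ofReal ((t ^ (d + 2))⁻¹) *
          ∫⁻ y in ball x (8 * t), ENNReal.ofReal (dl a ν₁ ν₂ y) ∂(mu G) := by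
      refine le_trans (le_of_eq ?_) (mul_le_mul_right h1 _)
      rw [hμ, ← ENNReal.ofReal_mul (by positivity), ← ENNReal.ofReal_mul (by positivity)]
      congr 1
      unfold th
      have ht' : t ≠ 0 := ht.ne'
      rw [div_pow, div_pow, pow_add, pow_add]
      field_simp
    have h2 := ENNReal.rpow_le_rpow key (show (0 : ℝ) ≤ 1 / 2 by norm_num)
    have h3 : ENNReal.ofReal (Real.sqrt (th G x (t / 128))) ≤ ENNReal.ofReal (128 ^ (d + 2)) *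
        ENNReal.ofReal (th G x (t / 128) / 128 ^ (d + 2)) ^ (1 / 2 : ℝ) := by
      rw [ENNReal.ofReal_rpow_of_nonneg (by positivity) (by norm_num), ← Real.sqrt_eq_rpow,
        ← ENNReal.ofReal_mul hC.le]
      apply ENNReal.ofReal_le_ofReal
      apply Real.sqrt_le_iff.2
      refine ⟨by positivity, ?_⟩
      rw [mul_pow, Real.sq_sqrt (by positivity)]
      have h4 : ((128 : ℝ) ^ (d + 2)) ^ 2 * (th G x (t / 128) / 128 ^ (d + 2)) =
          128 ^ (d + 2) * th G x (t / 128) := by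
        field_simp
      rw [h4]
      exact le_mul_of_one_le_left hth (one_le_pow₀ (by norm_num))
    exact h3.trans (mul_le_mul_right h2 _)

end Pool.Agent.H52.AN
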