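import Pool.Agent.H22.AN.TB3
import Pool.Agent.H80.AN.TargetsA
import Pool.Agent.H52.AN.FMB

/-!
# Row NRM: planes with small second moment are close to the standard plane
-/

set_option autoImplicit false

namespace Pool.Agent.H52.AN

open MeasureTheory Metric Set Filter Topology Pool.Agent.H87.SN Pool.Agent.H87.SH Pool.Agent.H87.AX
open Pool.Agent.H22.AN
open scoped ContDiff RealInnerProductSpace ENNReal

theorem norm_sq_rho {d : ℕ} (x : V d) : ‖x‖ ^ 2 = rho x ^ 2 + ‖zp x‖ ^ 2 := by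
  unfold rho
  rw [Real.sq_sqrt (by positivity), EuclideanSpace.norm_sq_eq, EuclideanSpace.norm_sq_eq,
    Fin.sum_univ_succ, Fin.sum_univ_succ]
  simp only [Real.norm_eq_abs, sq_abs, zp]
  rw [← add_assoc]
  rfl

theorem norm_bv {n : ℕ} (i : Fin n) : ‖(bv i : E n)‖ = 1 := by
  unfold bv
  simp

theorem hd_zero {d : ℕ} (x : V d) : hd 0 0 0 0 x = rho x ^ 2 := by
  unfold hd rho
  rw [Real.sq_sqrt (by positivity)]
  simp

/-- the choice of the threshold -/
theorem nrm_q {c η₀ D : ℝ} (hc : 0 < c) (hη : 0 < η₀) (hD : 1 ≤ D) : ∃ q : ℝ, 0 < q ∧ q ≤ c / 2 ∧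
    Real.sqrt (D * q) ≤ η₀ / 2 ∧ D * q ≤ η₀ / 2 := by
  have hD0 : 0 < D := by linarith
  refine ⟨min (c / 2) (min (η₀ ^ 2 / (4 * D)) (η₀ / (2 * D))), ?_, min_le_left _ _, ?_, ?_⟩
  · refine lt_min (by positivity) (lt_min (by positivity) (by positivity))
  · have h1 : D * min (c / 2) (min (η₀ ^ 2 / (4 * D)) (η₀ / (2 * D))) ≤ (η₀ / 2) ^ 2 := by
      calc _ ≤ D * (η₀ ^ 2 / (4 * D)) := mul_le_mul_of_nonneg_left
            ((min_le_right _ _).trans (min_le_left _ _)) hD0.le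
        _ = (η₀ / 2) ^ 2 := by field_simp; ring
    exact Real.sqrt_le_iff.2 ⟨by positivity, h1⟩
  · calc _ ≤ D * (η₀ / (2 * D)) := mul_le_mul_of_nonneg_left
          ((min_le_right _ _).trans (min_le_right _ _)) hD0.le
      _ = η₀ / 2 := by field_simp

theorem pf_NRM (hJEN : T_JEN) (hALG : Pool.Agent.H22.AN.T_ALG) (hMUF : T_MUF) : T_NRM := by
  intro d c κ hc hκ
  obtain ⟨CJ, hCJ, hJ⟩ := hJEN d c hc
  obtain ⟨CA, hCA, hA⟩ := hALG d
  have hCA0 : 0 < CA := by linarith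
  let η₀ : ℝ := min (1 / (8 * CA)) (min (κ / (8 * CA)) (κ / 3))
  have hη₀ : 0 < η₀ := lt_min (by positivity) (lt_min (by positivity) (by positivity))
  let D : ℝ := CJ * 16 ^ d + CJ + 1
  have hD1 : CJ * 16 ^ d ≤ D := by
    show CJ * 16 ^ d ≤ CJ * 16 ^ d + CJ + 1
    linarith
  have hD2 : CJ ≤ D := by
    show CJ ≤ CJ * 16 ^ d + CJ + 1
    have : 0 ≤ CJ * 16 ^ d := by positivity
    linarith
  have hD3 : 1 ≤ D := by
    show 1 ≤ CJ * 16 ^ d + CJ + 1
    have : 0 ≤ CJ * 16 ^ d := by positivity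
    linarith
  obtain ⟨q, hq0, hqc, hq1, hq2⟩ := nrm_q hc hη₀ hD3
  refine ⟨q, hq0, ?_⟩
  intro m G hG h mb hh hh1 hmb hCen a ν₁ ν₂ hON hint
  -- the windows
  have hz : ∀ o : Option (Fin d), ‖((o.elim 0 fun i => (1 / 8 : ℝ) • bv i : E d))‖ ≤ 1 / 8 := by
    intro o
    rcases o with _ | i
    · show ‖(0 : E d)‖ ≤ 1 / 8
      rw [norm_zero]
      norm_num
    · show ‖(1 / 8 : ℝ) • (bv i : E d)‖ ≤ 1 / 8
      rw [norm_smul, norm_bv, Real.norm_eq_abs, mul_one, abs_of_pos (by norm_num)]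
  have hwin : ∀ o : Option (Fin d), ∃ c₀ : V d, hd 0 0 0 0 c₀ ≤ (CJ * q) ^ 2 ∧
      ‖zp c₀ - (o.elim 0 fun i => (1 / 8 : ℝ) • bv i : E d)‖ ≤ CJ * q ∧
      dl a ν₁ ν₂ c₀ ≤ D * q := by
    intro o
    obtain ⟨c₀, h1, h2, h3⟩ := hJ m G hG h (1 / 4) q mb 0 0 0 0 hh hh1 hq0.le hqc hmb le_rfl
      (by simp) hCen (o.elim 0 fun i => (1 / 8 : ℝ) • bv i : E d) (1 / 16) (by linarith) le_rfl
      ((hz o).trans (by norm_num))
    refine ⟨c₀, h1, h2, ?_⟩
    have h4 := h3 a ν₁ ν₂ hON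
    have hsub : {x : V d | rho x < 2 * h ∧
        ‖zp x - (o.elim 0 fun i => (1 / 8 : ℝ) • bv i : E d)‖ < 1 / 16} ⊆ ball (0 : V d) (5 / 8) := by
      intro x hx
      have hx1 : rho x < 1 / 32 := lt_of_lt_of_le hx.1 (by linarith)
      have hx2 : ‖zp x‖ < 3 / 16 := by
        calc ‖zp x‖ = ‖(zp x - (o.elim 0 fun i => (1 / 8 : ℝ) • bv i : E d)) +
              (o.elim 0 fun i => (1 / 8 : ℝ) • bv i : E d)‖ := by rw [sub_add_cancel]
          _ ≤ _ := norm_add_le _ _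
          _ < 1 / 16 + 1 / 8 := add_lt_add_of_lt_of_le hx.2 (hz o)
          _ = 3 / 16 := by norm_num
      rw [mem_ball_zero_iff]
      have h5 := norm_sq_rho x
      have h6 : 0 ≤ rho x := Real.sqrt_nonneg _
      have h7 : 0 ≤ ‖zp x‖ := norm_nonneg _
      have h8 : 0 ≤ ‖x‖ := norm_nonneg _
      nlinarith
    have h5 : ENNReal.ofReal (dl a ν₁ ν₂ c₀) ≤ ENNReal.ofReal (CJ * 16 ^ d * q) := by
      refine h4.trans ?_
      have h6 := (lintegral_mono_set (μ := mu G) (f := fun x => ENNReal.ofReal (dl a ν₁ ν₂ x))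
        hsub).trans hint
      refine (mul_le_mul_right h6 _).trans (le_of_eq ?_)
      have h7 : CJ / (1 / 16 : ℝ) ^ d = CJ * 16 ^ d := by
        rw [one_div, inv_pow, div_inv_eq_mul]
      rw [h7, ← ENNReal.ofReal_mul (by positivity)]
    have h6 := (ENNReal.ofReal_le_ofReal_iff (by positivity)).1 h5
    exact h6.trans (mul_le_mul_of_nonneg_right hD1 hq0.le)
  choose cc hcc1 hcc2 hcc3 using hwin
  let η : ℝ := Real.sqrt (D * q) + D * q
  have hη1 : η ≤ η₀ := by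
    show Real.sqrt (D * q) + D * q ≤ η₀
    linarith
  have hη0 : 0 ≤ η := by
    show 0 ≤ Real.sqrt (D * q) + D * q
    positivity
  have hCq : CJ * q ≤ D * q := mul_le_mul_of_nonneg_right hD2 hq0.le
  have hCη : CJ * q ≤ η := by
    show CJ * q ≤ Real.sqrt (D * q) + D * q
    have := Real.sqrt_nonneg (D * q)
    linarith
  have hin : ∀ o, |⟪cc o - a, ν₁⟫| ≤ η ∧ |⟪cc o - a, ν₂⟫| ≤ η := by
    intro o
    have h1 := hcc3 o
    unfold dl at h1
    have h2 : Real.sqrt (D * q) ≤ η := by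
      show Real.sqrt (D * q) ≤ Real.sqrt (D * q) + D * q
      have : 0 ≤ D * q := by positivity
      linarith
    constructor
    · exact (Real.abs_le_sqrt ((le_add_of_nonneg_right (sq_nonneg _)).trans h1)).trans h2
    · exact (Real.abs_le_sqrt ((le_add_of_nonneg_left (sq_nonneg _)).trans h1)).trans h2
  have e1 : η₀ ≤ 1 / (8 * CA) := min_le_left _ _
  have e2 : η₀ ≤ κ / (8 * CA) := (min_le_right _ _).trans (min_le_left _ _)
  have e3 : η₀ ≤ κ / 3 := (min_le_right _ _).trans (min_le_right _ _)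
  have hCAη : CA * η ≤ 1 / 8 := by
    calc CA * η ≤ CA * (1 / (8 * CA)) := mul_le_mul_of_nonneg_left (hη1.trans e1) hCA0.le
      _ = 1 / 8 := by field_simp
  have hCAη' : CA * (η / (1 / 8) + ‖(0 : E d)‖ + ‖(0 : E d)‖) ≤ κ := by
    rw [norm_zero, add_zero, add_zero]
    calc CA * (η / (1 / 8)) ≤ CA * (κ / (8 * CA) / (1 / 8)) := by
          refine mul_le_mul_of_nonneg_left ?_ hCA0.le
          exact div_le_div_of_nonneg_right (hη1.trans e2) (by norm_num)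
      _ = κ := by field_simp
  have hmain := (hA a ν₁ ν₂ 0 0 0 0 cc 0 (1 / 8) η hON (by norm_num) (by norm_num) hη0 hCAη
    (by
      rw [abs_zero, norm_zero, add_zero, add_zero, add_zero]
      positivity) hin
    (fun o => (hcc1 o).trans (pow_le_pow_left₀ (by positivity) hCη 2))
    ((hcc2 none).trans hCη)
    (fun i => by
      rw [zero_add]
      exact (hcc2 (some i)).trans hCη)).1
  -- the position
  have hnorm : ‖cc none‖ ≤ 2 * η := by
    have h1 := norm_sq_rho (cc none)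
    have h2 := hcc1 none
    rw [hd_zero] at h2
    have h3 : ‖zp (cc none)‖ ≤ CJ * q := by
      have h4 := hcc2 none
      have h5 : zp (cc none) - (Option.elim (none : Option (Fin d)) 0
        fun i => (1 / 8 : ℝ) • bv i : E d) = zp (cc none) := sub_zero _
      rw [h5] at h4
      exact h4
    have h4 : 0 ≤ CJ * q := by positivity
    have h5 : ‖zp (cc none)‖ ^ 2 ≤ (CJ * q) ^ 2 := pow_le_pow_left₀ (norm_nonneg _) h3 2
    have h6 : (CJ * q) ^ 2 ≤ η ^ 2 := pow_le_pow_left₀ h4 hCη 2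
    have h7 : ‖cc none‖ ^ 2 ≤ (2 * η) ^ 2 := by nlinarith
    exact (abs_le_of_sq_le_sq h7 (by positivity)).trans' (le_abs_self _)
  have hpos : ∀ ν : V d, ‖ν‖ = 1 → |⟪cc none - a, ν⟫| ≤ η → |⟪a, ν⟫| ≤ κ := by
    intro ν hν h1
    have h2 : (⟪a, ν⟫ : ℝ) = ⟪cc none, ν⟫ - ⟪cc none - a, ν⟫ := by
      rw [inner_sub_left]
      ring
    have h3 : |⟪cc none, ν⟫| ≤ ‖cc none‖ := by
      have := abs_real_inner_le_norm (cc none) ν
      rwa [hν, mul_one] at this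
    rw [h2]
    calc |⟪cc none, ν⟫ - ⟪cc none - a, ν⟫| ≤ |⟪cc none, ν⟫| + |⟪cc none - a, ν⟫| := abs_sub _ _
      _ ≤ 2 * η + η := add_le_add (h3.trans hnorm) h1
      _ ≤ κ := by linarith
  exact ⟨hmain.1.trans hCAη', hmain.2.trans hCAη', hpos ν₁ hON.1 (hin none).1,
    hpos ν₂ hON.2.1 (hin none).2⟩

end Pool.Agent.H52.AN
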